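import Mathlib
import Pool.Agent.Helper11.MT.Final3
import Pool.Agent.Helper11.MT.Lattice2

/-!
The first sieve sum for general residue classes, with progression modulus `W ∣ V`,
and the extension of the weights by an auxiliary coordinate.
-/

open Finset

namespace Pool.Agent.Helper94.BE

open Pool.Agent.Helper11.MT

section classes

variable {W V R : ℕ} {ι : Type} [Fintype ι] [DecidableEq ι]

/-- The pairs `(q, i)` with `m` in the class `cl q i`. -/
def Yc (cl : QT V R → ι → ℕ) (m : ℕ) : Finset (QT V R × ι) :=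
  univ.filter (fun τ => m ≡ cl τ.1 τ.2 [MOD (τ.1 : ℕ)])

lemma mem_Yc {cl : QT V R → ι → ℕ} {m : ℕ} {τ : QT V R × ι} :
    τ ∈ Yc cl m ↔ m ≡ cl τ.1 τ.2 [MOD (τ.1 : ℕ)] := by
  unfold Yc
  rw [Finset.mem_filter]
  exact ⟨fun h => h.2, fun h => ⟨Finset.mem_univ _, h⟩⟩

/-- The classes are distinct. -/
def DistC (cl : QT V R → ι → ℕ) : Prop :=
  ∀ q : QT V R, ∀ i j : ι, i ≠ j → ¬ cl q i ≡ cl q j [MOD (q : ℕ)]

lemma isPar_of_subset_Yc {cl : QT V R → ι → ℕ} (hd : DistC cl) {m : ℕ}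
    {C : Finset (QT V R × ι)} (hC : C ⊆ Yc cl m) : IsPar C := by
  intro τ hτ σ hσ heq
  have h1 := mem_Yc.mp (hC hτ)
  have h2 := mem_Yc.mp (hC hσ)
  rw [← heq] at h2
  by_contra hne
  have hij : τ.2 ≠ σ.2 := fun h => hne (Prod.ext heq h)
  exact hd τ.1 τ.2 σ.2 hij (h1.symm.trans h2)

lemma coprime_nnW (hWV : W ∣ V) {C : Finset (QT V R × ι)} {q : QT V R}
    (hq : ∀ τ ∈ C, τ.1 ≠ q) : Nat.Coprime (W * nn C) q := by
  refine Nat.Coprime.mul_left ?_ ?_
  · refine (((qt_prime q).coprime_iff_not_dvd).mpr fun h => ?_).symm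
    exact qt_not_dvd q (h.trans hWV)
  · unfold nn
    refine Nat.Coprime.prod_left fun τ hτ => ?_
    refine (Nat.coprime_primes (qt_prime τ.1) (qt_prime q)).mpr fun h => ?_
    exact hq τ hτ (Subtype.ext h)

/-- The joint congruence conditions form one residue class. -/
lemma exists_class_c (hWV : W ∣ V) (cl : QT V R → ι → ℕ) (v : ℕ) (C : Finset (QT V R × ι))
    (hC : IsPar C) : ∃ a, ∀ m, (m ≡ v [MOD W] ∧ C ⊆ Yc cl m) ↔ m ≡ a [MOD (W * nn C)] := by
  induction C using Finset.induction_on with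
  | empty =>
    refine ⟨v, fun m => ?_⟩
    simp [nn]
  | insert τ C hτ ih =>
    obtain ⟨a0, ha0⟩ := ih (fun σ hσ ρ hρ => hC σ (Finset.mem_insert_of_mem hσ) ρ
      (Finset.mem_insert_of_mem hρ))
    have hcop : Nat.Coprime (W * nn C) τ.1 := by
      refine coprime_nnW hWV fun σ hσ heq => ?_
      have := hC σ (Finset.mem_insert_of_mem hσ) τ (Finset.mem_insert_self _ _) heq
      rw [this] at hσ
      exact hτ hσ
    obtain ⟨a, ha1, ha2⟩ := Nat.chineseRemainder hcop a0 (cl τ.1 τ.2)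
    refine ⟨a, fun m => ?_⟩
    have e1 : W * nn (insert τ C) = (W * nn C) * τ.1 := by
      unfold nn
      rw [Finset.prod_insert hτ]
      ring
    rw [e1, ← Nat.modEq_and_modEq_iff_modEq_mul hcop, Finset.insert_subset_iff, mem_Yc]
    constructor
    · rintro ⟨h3, h4, h5⟩
      exact ⟨((ha0 m).mp ⟨h3, h5⟩).trans ha1.symm, h4.trans ha2.symm⟩
    · rintro ⟨h3, h4⟩
      have := (ha0 m).mpr (h3.trans ha1)
      exact ⟨this.1, h4.trans ha2, this.2⟩

/-- One residue class condition, asymptotically. -/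
lemma tsum_class_c [NeZero W] (hWV : W ∣ V) {cl : QT V R → ι → ℕ} (hd : DistC cl) (v : ℕ)
    (C : Finset (QT V R × ι)) (J : ℕ) :
    |(∑' m, if m ≡ v [MOD W] ∧ C ⊆ Yc cl m then w J m else 0) -
      (∑' m, w J m) / W * (if IsPar C then 1 / (nn C : ℝ) else 0)| ≤ 4 * ((2 / 3) ^ J * K32) := by
  split_ifs with hC
  · obtain ⟨a, ha⟩ := exists_class_c hWV cl v C hC
    have hpos : 0 < W * nn C := by
      refine Nat.mul_pos (NeZero.pos W) ?_
      unfold nn
      exact Finset.prod_pos fun τ _ => (qt_prime τ.1).pos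
    have h1 := abs_tsum_w_modEq_sub J hpos a
    have e1 : (∑' m, if m ≡ v [MOD W] ∧ C ⊆ Yc cl m then w J m else 0) =
        ∑' m, if m ≡ a [MOD (W * nn C)] then w J m else 0 := by
      refine tsum_congr fun m => ?_
      by_cases h2 : m ≡ a [MOD (W * nn C)]
      · rw [if_pos h2, if_pos ((ha m).mpr h2)]
      · rw [if_neg h2, if_neg (fun h => h2 ((ha m).mp h))]
    rw [e1]
    have e2 : (∑' m, w J m) / W * (1 / (nn C : ℝ)) = (∑' m, w J m) / ((W * nn C : ℕ) : ℝ) := by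
      push_cast
      rw [div_mul_div_comm, mul_one]
    rw [e2]
    exact h1
  · have e1 : (∑' m, if m ≡ v [MOD W] ∧ C ⊆ Yc cl m then w J m else 0) = 0 := by
      rw [tsum_congr (fun m => if_neg (fun h2 => hC (isPar_of_subset_Yc hd h2.2)))]
      exact tsum_zero
    rw [e1, mul_zero, sub_zero, abs_zero]
    have := K32_nonneg
    positivity

/-- Asymptotic evaluation of the first sieve sum. -/
theorem S1_asymp_c [NeZero W] (hWV : W ∣ V) {cl : QT V R → ι → ℕ} (hd : DistC cl)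
    {g : QT V R → ℝ} (hg : ∀ q, 1 ≤ g q) (hgq : ∀ q, g q + Fintype.card ι = (q : ℕ)) (v : ℕ)
    {G : Finset (QT V R × ι) → ℝ} {lam : Finset (QT V R × ι) → ℝ}
    (hG : ∀ Y, G Y = ∑ D ∈ Y.powerset, lam D) (J : ℕ) :
    |(∑' m, if m ≡ v [MOD W] then w J m * (G (Yc cl m)) ^ 2 else 0) -
      (∑' m, w J m) / W * BB g univ (fun Y => (G Y) ^ 2) (fun _ => none)| ≤
      (∑ D, |lam D|) ^ 2 * (4 * ((2 / 3) ^ J * K32)) := by
  have hprod : ∀ C : Finset (QT V R × ι),
      ∏ τ ∈ C, 1 / (g τ.1 + Fintype.card ι) = 1 / (nn C : ℝ) := by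
    intro C
    unfold nn
    push_cast
    rw [one_div, ← Finset.prod_inv_distrib]
    refine Finset.prod_congr rfl fun τ _ => ?_
    rw [hgq, one_div]
  have e1 : (∑' m, if m ≡ v [MOD W] then w J m * (G (Yc cl m)) ^ 2 else 0) =
      ∑ D, ∑ D', lam D * lam D' *
        ∑' m, if m ≡ v [MOD W] ∧ D ∪ D' ⊆ Yc cl m then w J m else 0 := by
    have hs : ∀ D D' : Finset (QT V R × ι), Summable fun m => lam D * lam D' *
        (if m ≡ v [MOD W] ∧ D ∪ D' ⊆ Yc cl m then w J m else 0) := by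
      intro D D'
      refine Summable.mul_left _ ?_
      refine Summable.of_nonneg_of_le (fun m => ?_) (fun m => ?_) (summable_w J)
      · split_ifs
        · exact w_nonneg _ _
        · exact le_rfl
      · split_ifs
        · exact le_rfl
        · exact w_nonneg _ _
    have h2 : ∀ m, (if m ≡ v [MOD W] then w J m * (G (Yc cl m)) ^ 2 else 0) =
        ∑ D, ∑ D', lam D * lam D' *
        (if m ≡ v [MOD W] ∧ D ∪ D' ⊆ Yc cl m then w J m else 0) := by
      intro m
      by_cases hm : m ≡ v [MOD W]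
      · rw [if_pos hm, sq_expand hG, Finset.mul_sum]
        refine Finset.sum_congr rfl fun D _ => ?_
        rw [Finset.mul_sum]
        refine Finset.sum_congr rfl fun D' _ => ?_
        by_cases h3 : D ∪ D' ⊆ Yc cl m
        · rw [if_pos h3, if_pos ⟨hm, h3⟩]; ring
        · rw [if_neg h3, if_neg (fun h => h3 h.2)]; ring
      · rw [if_neg hm]
        symm
        refine Finset.sum_eq_zero fun D _ => Finset.sum_eq_zero fun D' _ => ?_
        rw [if_neg (fun h => hm h.1), mul_zero]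
    rw [tsum_congr h2, Summable.tsum_finsetSum (fun D _ => summable_sum fun D' _ => hs D D')]
    refine Finset.sum_congr rfl fun D _ => ?_
    rw [Summable.tsum_finsetSum (fun D' _ => hs D D')]
    refine Finset.sum_congr rfl fun D' _ => ?_
    rw [tsum_mul_left]
  have e2 : BB g univ (fun Y => (G Y) ^ 2) (fun _ : QT V R => (none : Option ι)) =
      ∑ D, ∑ D', lam D * lam D' *
        (if IsPar (D ∪ D') then 1 / (nn (D ∪ D') : ℝ) else 0) := by
    have h2 : ∀ D D' : Finset (QT V R × ι), (if IsPar (D ∪ D') then 1 / (nn (D ∪ D') : ℝ) else 0) =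
        ∑ f : QT V R → Option ι, (∏ q, kap g univ q none (f q)) *
          (if (D ∪ D') ⊆ gr f then (1 : ℝ) else 0) := by
      intro D D'
      rw [prob_subset g hg (D ∪ D')]
      split_ifs
      · rw [hprod]
      · rfl
    unfold BB
    simp_rw [h2, sq_expand hG, Finset.mul_sum]
    rw [Finset.sum_comm]
    refine Finset.sum_congr rfl fun D _ => ?_
    rw [Finset.sum_comm]
    refine Finset.sum_congr rfl fun D' _ => Finset.sum_congr rfl fun f _ => ?_
    ring
  rw [e1, e2, Finset.mul_sum, ← Finset.sum_sub_distrib]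
  have e3 : (∑ D, |lam D|) ^ 2 * (4 * ((2 / 3) ^ J * K32)) =
      ∑ D, ∑ D', |lam D| * |lam D'| * (4 * ((2 / 3) ^ J * K32)) := by
    rw [pow_two, Finset.sum_mul_sum, Finset.sum_mul]
    refine Finset.sum_congr rfl fun D _ => ?_
    rw [Finset.sum_mul]
  rw [e3]
  refine (Finset.abs_sum_le_sum_abs _ _).trans (Finset.sum_le_sum fun D _ => ?_)
  rw [Finset.mul_sum, ← Finset.sum_sub_distrib]
  refine (Finset.abs_sum_le_sum_abs _ _).trans (Finset.sum_le_sum fun D' _ => ?_)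
  have h5 := tsum_class_c hWV hd v (D ∪ D') J
  have e4 : lam D * lam D' * (∑' m, if m ≡ v [MOD W] ∧ D ∪ D' ⊆ Yc cl m then w J m else 0) -
      (∑' m, w J m) / W * (lam D * lam D' *
        (if IsPar (D ∪ D') then 1 / (nn (D ∪ D') : ℝ) else 0)) =
      lam D * lam D' * ((∑' m, if m ≡ v [MOD W] ∧ D ∪ D' ⊆ Yc cl m then w J m else 0) -
      (∑' m, w J m) / W * (if IsPar (D ∪ D') then 1 / (nn (D ∪ D') : ℝ) else 0)) := by ring
  rw [e4, abs_mul, abs_mul]
  exact mul_le_mul_of_nonneg_left h5 (by positivity)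

end classes

section extension

variable {Q ι : Type} [Fintype Q] [DecidableEq Q] [Fintype ι] [DecidableEq ι]

/-- The part in the first coordinates. -/
def fs (U : Finset (Q × Option ι)) : Finset (Q × ι) := univ.filter (fun τ => (τ.1, some τ.2) ∈ U)

/-- The part in the auxiliary coordinate. -/
def ls (U : Finset (Q × Option ι)) : Finset Q := univ.filter (fun q => (q, none) ∈ U)

lemma mem_fs {U : Finset (Q × Option ι)} {τ : Q × ι} : τ ∈ fs U ↔ (τ.1, some τ.2) ∈ U := by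
  unfold fs
  simp

lemma mem_ls {U : Finset (Q × Option ι)} {q : Q} : q ∈ ls U ↔ (q, none) ∈ U := by
  unfold ls
  simp

lemma fs_mono {U U' : Finset (Q × Option ι)} (h : U ⊆ U') : fs U ⊆ fs U' := by
  intro τ hτ
  rw [mem_fs] at hτ ⊢
  exact h hτ

lemma ls_mono {U U' : Finset (Q × Option ι)} (h : U ⊆ U') : ls U ⊆ ls U' := by
  intro τ hτ
  rw [mem_ls] at hτ ⊢
  exact h hτ

/-- The embedding of the first coordinates. -/
def emS : Q × ι ↪ Q × Option ι := ⟨fun τ => (τ.1, some τ.2), fun a b h => by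
  simp only [Prod.mk.injEq, Option.some.injEq] at h
  exact Prod.ext h.1 h.2⟩

/-- The embedding of the auxiliary coordinate. -/
def emN : Q ↪ Q × Option ι := ⟨fun q => (q, none), fun a b h => by simpa using h⟩

lemma mem_join {A : Finset (Q × ι)} {B : Finset Q} {τ : Q × Option ι} :
    τ ∈ A.map emS ∪ B.map (emN (ι := ι)) ↔
      (∃ i, τ.2 = some i ∧ (τ.1, i) ∈ A) ∨ (τ.2 = none ∧ τ.1 ∈ B) := by
  rw [Finset.mem_union, Finset.mem_map, Finset.mem_map]
  constructor
  · rintro (⟨σ, hσ, rfl⟩ | ⟨q, hq, rfl⟩)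
    · exact Or.inl ⟨σ.2, rfl, hσ⟩
    · exact Or.inr ⟨rfl, hq⟩
  · rintro (⟨i, hi, h⟩ | ⟨h, hq⟩)
    · exact Or.inl ⟨(τ.1, i), h, Prod.ext rfl hi.symm⟩
    · exact Or.inr ⟨τ.1, hq, Prod.ext rfl h.symm⟩

lemma fs_join (A : Finset (Q × ι)) (B : Finset Q) : fs (A.map emS ∪ B.map (emN (ι := ι))) = A := by
  ext τ
  rw [mem_fs, mem_join]
  simp

lemma ls_join (A : Finset (Q × ι)) (B : Finset Q) : ls (A.map emS ∪ B.map (emN (ι := ι))) = B := by
  ext q
  rw [mem_ls, mem_join]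
  simp

lemma join_split (U : Finset (Q × Option ι)) :
    (fs U).map emS ∪ (ls U).map (emN (ι := ι)) = U := by
  ext ⟨q, o⟩
  rw [mem_join]
  cases o with
  | none => simp [mem_ls]
  | some i => simp [mem_fs]

/-- The decomposition as an equivalence. -/
def splitEquiv : Finset (Q × Option ι) ≃ Finset (Q × ι) × Finset Q where
  toFun U := (fs U, ls U)
  invFun p := p.1.map emS ∪ p.2.map emN
  left_inv U := join_split U
  right_inv p := Prod.ext (fs_join p.1 p.2) (ls_join p.1 p.2)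

lemma prod_split {M : Type*} [CommMonoid M] (F : Q × Option ι → M) (U : Finset (Q × Option ι)) :
    ∏ τ ∈ U, F τ = (∏ τ ∈ fs U, F (τ.1, some τ.2)) * ∏ q ∈ ls U, F (q, none) := by
  conv_lhs => rw [← join_split U]
  rw [Finset.prod_union, Finset.prod_map, Finset.prod_map]
  · rfl
  · rw [Finset.disjoint_left]
    intro a ha hb
    rw [Finset.mem_map] at ha hb
    obtain ⟨τ, -, rfl⟩ := ha
    obtain ⟨q, -, h⟩ := hb
    simp [emS, emN] at h

lemma gU_split (g : Q → ℝ) (U : Finset (Q × Option ι)) :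
    gU g U = gU g (fs U) * ∏ q ∈ ls U, g q := prod_split (fun τ => g τ.1) U

lemma eU_split (g : Q → ℝ) (U Y : Finset (Q × Option ι)) :
    eU g U Y = eU g (fs U) (fs Y) * ∏ q ∈ ls U, (if q ∈ ls Y then -1 else 1 / g q) := by
  unfold eU
  rw [prod_split]
  congr 1
  · refine Finset.prod_congr rfl fun τ _ => ?_
    simp only [mem_fs]
  · refine Finset.prod_congr rfl fun q _ => ?_
    simp only [mem_ls]

lemma sum_split (F : Finset (Q × ι) → ℝ) (F' : Finset Q → ℝ) :
    ∑ U : Finset (Q × Option ι), F (fs U) * F' (ls U) = (∑ U, F U) * ∑ V, F' V := by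
  rw [Finset.sum_mul_sum, ← Fintype.sum_prod_type' (fun U V => F U * F' V),
    ← Equiv.sum_comp (splitEquiv (Q := Q) (ι := ι))]
  rfl

/-- Extended weights. -/
noncomputable def yext (y : Finset (Q × ι) → ℝ) (ξ : Finset Q → ℝ) (U : Finset (Q × Option ι)) : ℝ :=
  y (fs U) * ξ (ls U)

lemma AA_ext (g : Q → ℝ) (y : Finset (Q × ι) → ℝ) (ξ : Finset Q → ℝ) (Y : Finset (Q × Option ι)) :
    AA g (yext y ξ) Y = AA g y (fs Y) *
      ∑ V : Finset Q, ξ V * ∏ q ∈ V, (if q ∈ ls Y then -1 else 1 / g q) := by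
  unfold AA yext
  rw [← sum_split (fun U => y U * eU g U (fs Y))]
  refine Finset.sum_congr rfl fun U _ => ?_
  rw [eU_split]
  ring

lemma QI_univ_eq (g : Q → ℝ) (y : Finset (Q × ι) → ℝ) :
    QI g univ y = ∑ U, (y U) ^ 2 / gU g U := by
  unfold QI
  have h1 : EI Q (univ : Finset ι) = univ := by
    unfold EI
    simp
  rw [h1, Finset.powerset_univ]
  refine Finset.sum_congr rfl fun U _ => ?_
  have h2 : yI g univ y U = y U := by
    unfold yI
    have h3 : (univ.filter (fun τ : Q × ι => τ.2 ∉ (univ : Finset ι))) = ∅ := by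
      simp
    rw [h3, Finset.powerset_empty, Finset.sum_singleton, Finset.union_empty]
    unfold gU
    simp
  rw [h2]

lemma QI_ext (g : Q → ℝ) (y : Finset (Q × ι) → ℝ) (ξ : Finset Q → ℝ) :
    QI g univ (yext y ξ) = QI g univ y * ∑ V : Finset Q, (ξ V) ^ 2 / ∏ q ∈ V, g q := by
  rw [QI_univ_eq, QI_univ_eq, ← sum_split (fun U => (y U) ^ 2 / gU g U)]
  refine Finset.sum_congr rfl fun U _ => ?_
  unfold yext
  rw [gU_split, mul_pow, div_mul_div_comm]

lemma yext_nonneg {y : Finset (Q × ι) → ℝ} {ξ : Finset Q → ℝ} (hy : ∀ U, 0 ≤ y U)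
    (hξ : ∀ V, 0 ≤ ξ V) (U : Finset (Q × Option ι)) : 0 ≤ yext y ξ U := mul_nonneg (hy _) (hξ _)

lemma yext_anti {y : Finset (Q × ι) → ℝ} {ξ : Finset Q → ℝ} (hy : ∀ U, 0 ≤ y U)
    (hξ : ∀ V, 0 ≤ ξ V) (hya : ∀ U U', U ⊆ U' → y U' ≤ y U) (hξa : ∀ V V', V ⊆ V' → ξ V' ≤ ξ V)
    (U U' : Finset (Q × Option ι)) (h : U ⊆ U') : yext y ξ U' ≤ yext y ξ U :=
  mul_le_mul (hya _ _ (fs_mono h)) (hξa _ _ (ls_mono h)) (hξ _) (hy _)

end extension

end Pool.Agent.Helper94.BE
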