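import Mathlib
import Pool.Agent.Helper94.BE.GenS1
import Pool.Agent.Helper11.MT.Optim
import Pool.Agent.Helper99.MT2.Statement2

/-!
Bounds for the first sieve sum and for the sum over integers with a rough companion.
-/

open Finset

namespace Pool.Agent.Helper94.BE

open Pool.Agent.Helper11.MT Pool.Agent.Helper99.MT2

section

variable {W V R K : ℕ}

/-- The residue classes of the forms `m + h i`, and an auxiliary one. -/
def clh (h : Fin K → ℕ) (e : QT V R → ℕ) (q : QT V R) : Option (Fin K) → ℕ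
  | none => e q
  | some i => ((q : ℕ) - 1) * h i

lemma modEq_neg_iff {q m a : ℕ} (hq : 1 ≤ q) : m ≡ (q - 1) * a [MOD q] ↔ q ∣ m + a := by
  have h3 : (q - 1) * a + a ≡ 0 [MOD q] := by
    rw [Nat.modEq_zero_iff_dvd]
    have : (q - 1) * a + a = q * a := by
      obtain ⟨c, hc⟩ := Nat.exists_eq_add_of_le hq
      rw [hc, Nat.add_sub_cancel_left]
      ring
    rw [this]
    exact dvd_mul_right _ _
  rw [← Nat.modEq_zero_iff_dvd]
  constructor
  · intro h4
    exact (h4.add_right _).trans h3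
  · intro h4
    exact Nat.ModEq.add_right_cancel' _ (h4.trans h3.symm)

lemma fs_Yc (h : Fin K → ℕ) (e : QT V R → ℕ) (m : ℕ) : fs (Yc (clh h e) m) = Ymap h m := by
  ext τ
  rw [mem_fs, mem_Yc, mem_Ymap]
  exact modEq_neg_iff (qt_prime τ.1).one_le

lemma mem_ls_Yc {h : Fin K → ℕ} {e : QT V R → ℕ} {m : ℕ} {q : QT V R} :
    q ∈ ls (Yc (clh h e) m) ↔ m ≡ e q [MOD (q : ℕ)] := by
  rw [mem_ls, mem_Yc]
  rfl

lemma distC_clh {h : Fin K → ℕ} {e : QT V R → ℕ} (hd : Distinct V R h)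
    (he : ∀ q : QT V R, ∀ i, ¬ (q : ℕ) ∣ e q + h i) : DistC (clh h e) := by
  have hkey : ∀ q : QT V R, ∀ i, ¬ e q ≡ ((q : ℕ) - 1) * h i [MOD (q : ℕ)] := fun q i hc =>
    he q i ((modEq_neg_iff (qt_prime q).one_le).mp hc)
  intro q i j hij hc
  cases i with
  | none =>
    cases j with
    | none => exact hij rfl
    | some j => exact hkey q j hc
  | some i =>
    cases j with
    | none => exact hkey q i hc.symm
    | some j =>
      have h1 : (q : ℕ) ∣ ((q : ℕ) - 1) * h i + h j := (modEq_neg_iff (qt_prime q).one_le).mp hc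
      have h2 : (q : ℕ) ∣ ((q : ℕ) - 1) * h i + h i :=
        (modEq_neg_iff (qt_prime q).one_le).mp (Nat.ModEq.refl _)
      apply hd q q.2 i j (fun h => hij (by rw [h]))
      have h3 : ((q : ℕ) - 1) * h i + h i ≡ ((q : ℕ) - 1) * h i + h j [MOD (q : ℕ)] :=
        ((Nat.modEq_zero_iff_dvd).mpr h2).trans ((Nat.modEq_zero_iff_dvd).mpr h1).symm
      exact Nat.ModEq.add_left_cancel' _ h3

lemma gk_add_card (q : QT V R) :
    gk (K + 1) q + Fintype.card (Option (Fin K)) = ((q : ℕ) : ℝ) := by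
  unfold gk
  rw [Fintype.card_option, Fintype.card_fin]
  ring

/-- The sum with weights `y`, extended by `ξ`. -/
theorem core [NeZero W] (hWV : W ∣ V) {h : Fin K → ℕ} {e : QT V R → ℕ} (hd : Distinct V R h)
    (he : ∀ q : QT V R, ∀ i, ¬ (q : ℕ) ∣ e q + h i) (hg : ∀ q : QT V R, 1 ≤ gk (K + 1) q) (v : ℕ)
    {y : Finset (QT V R × Fin K) → ℝ} {ξ : Finset (QT V R) → ℝ}
    (hy0 : ∀ U, 0 ≤ y U) (hy1 : ∀ U, y U ≤ 1) (hya : ∀ U U', U ⊆ U' → y U' ≤ y U)
    (hξ0 : ∀ U, 0 ≤ ξ U) (hξ1 : ∀ U, ξ U ≤ 1) (hξa : ∀ U U', U ⊆ U' → ξ U' ≤ ξ U) {R' : ℕ}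
    (hs : ∀ U : Finset (QT V R × Option (Fin K)), R' < nn U → yext y ξ U = 0) (J : ℕ) :
    (∑' m, w J m) / W * ((1 - 16 * ((K : ℝ) + 1) ^ 2 * ∑ q : QT V R, 1 / (gk (K + 1) q) ^ 2) *
        (EEg (K + 1) y * ∑ U, (ξ U) ^ 2 / Opt.gV (K + 1) U)) -
      ((R' : ℝ) ^ 5 * Real.exp (2 * ((K : ℝ) + 1) * ∑ q : QT V R, 1 / ((q : ℕ) : ℝ) ^ 2)) ^ 2 *
        (4 * ((2 / 3) ^ J * K32)) ≤
      (∑' m, if m ≡ v [MOD W] then
        w J m * (AA (gk (K + 1)) (yext y ξ) (Yc (clh h e) m)) ^ 2 else 0) ∧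
    (∑' m, if m ≡ v [MOD W] then
        w J m * (AA (gk (K + 1)) (yext y ξ) (Yc (clh h e) m)) ^ 2 else 0) ≤
    (∑' m, w J m) / W * (Real.exp (((K : ℝ) + 1) ^ 2 * ∑ q : QT V R, 1 / (gk (K + 1) q) ^ 2) *
        (EEg (K + 1) y * ∑ U, (ξ U) ^ 2 / Opt.gV (K + 1) U)) +
      ((R' : ℝ) ^ 5 * Real.exp (2 * ((K : ℝ) + 1) * ∑ q : QT V R, 1 / ((q : ℕ) : ℝ) ^ 2)) ^ 2 *
        (4 * ((2 / 3) ^ J * K32)) := by
  have hcard : (Fintype.card (Option (Fin K)) : ℝ) = K + 1 := by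
    rw [Fintype.card_option, Fintype.card_fin]
    push_cast
    ring
  have hcardu : (#(univ : Finset (Option (Fin K))) : ℝ) = K + 1 := by
    rw [Finset.card_univ, hcard]
  have h0 := yext_nonneg hy0 hξ0
  have ha := yext_anti hy0 hξ0 hya hξa
  obtain ⟨lam, hlam1, -, hlam3⟩ := lambda (QT V R) (Option (Fin K)) (gk (K + 1)) hg (yext y ξ)
    (fun q => (q : ℕ)) (fun q => by
      unfold gk
      push_cast
      have : (0 : ℝ) ≤ K := Nat.cast_nonneg _
      linarith) R' (fun U => by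
        rw [abs_of_nonneg (h0 U)]
        exact mul_le_one₀ (hy1 _) (hξ0 _) (hξ1 _)) hs
  rw [hcard] at hlam3
  have hmain := S1_asymp_c hWV (distC_clh hd he) hg gk_add_card v hlam1 J
  have hup := upper (QT V R) (Option (Fin K)) (gk (K + 1)) hg univ (yext y ξ) h0 ha (fun _ => none)
  have hlo := lower (QT V R) (Option (Fin K)) (gk (K + 1)) hg univ (yext y ξ) h0 ha
  have hQ : QI (gk (K + 1)) univ (yext y ξ) =
      EEg (K + 1) y * ∑ U, (ξ U) ^ 2 / Opt.gV (K + 1) U := by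
    rw [QI_ext, QI_univ_eq]
    rfl
  have hsupp : supp (fun _ : QT V R => (none : Option (Option (Fin K)))) = ∅ := by
    unfold supp
    simp
  rw [hsupp, Finset.card_empty, pow_zero, mul_one, hcardu, hQ] at hup
  rw [hcardu, hQ] at hlo
  have hup' := (le_abs_self _).trans hup
  have hΩ : 0 ≤ (∑' m, w J m) / (W : ℝ) :=
    div_nonneg (tsum_nonneg fun m => w_nonneg _ _) (Nat.cast_nonneg _)
  have hK := K32_nonneg
  have herr : (∑ D, |lam D|) ^ 2 * (4 * ((2 / 3) ^ J * K32)) ≤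
      ((R' : ℝ) ^ 5 * Real.exp (2 * ((K : ℝ) + 1) * ∑ q : QT V R, 1 / ((q : ℕ) : ℝ) ^ 2)) ^ 2 *
        (4 * ((2 / 3) ^ J * K32)) := by
    refine mul_le_mul_of_nonneg_right ?_ (by positivity)
    exact pow_le_pow_left₀ (Finset.sum_nonneg fun D _ => abs_nonneg _) hlam3 2
  have h1 := (abs_le.mp hmain).1
  have h2 := (abs_le.mp hmain).2
  have h3 := mul_le_mul_of_nonneg_left hup' hΩ
  have h4 := mul_le_mul_of_nonneg_left hlo hΩ
  constructor
  · linarith
  · linarith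

/-- The sieve weight. -/
noncomputable def om (W v : ℕ) (h : Fin K → ℕ) (y : Finset (QT V R × Fin K) → ℝ) (J m : ℕ) : ℝ :=
  if m ≡ v [MOD W] then w J m * (AA (gk (K + 1)) y (Ymap h m)) ^ 2 else 0

lemma om_nonneg (W v : ℕ) (h : Fin K → ℕ) (y : Finset (QT V R × Fin K) → ℝ) (J m : ℕ) :
    0 ≤ om W v h y J m := by
  unfold om
  split_ifs
  · exact mul_nonneg (w_nonneg _ _) (sq_nonneg _)
  · exact le_rfl

lemma exists_sq_bound (y : Finset (QT V R × Fin K) → ℝ) :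
    ∃ L : ℝ, 0 ≤ L ∧ ∀ Y, (AA (gk (K + 1)) y Y) ^ 2 ≤ L := by
  refine ⟨∑ Y, (AA (gk (K + 1)) y Y) ^ 2, Finset.sum_nonneg fun _ _ => sq_nonneg _, fun Y => ?_⟩
  exact Finset.single_le_sum (f := fun Y => (AA (gk (K + 1)) y Y) ^ 2)
    (fun _ _ => sq_nonneg _) (Finset.mem_univ Y)

lemma summable_om (W v : ℕ) (h : Fin K → ℕ) (y : Finset (QT V R × Fin K) → ℝ) (J : ℕ) :
    Summable (om W v h y J) := by
  obtain ⟨L, hL0, hL⟩ := exists_sq_bound y
  refine Summable.of_nonneg_of_le (fun m => om_nonneg _ _ _ _ _ _) (fun m => ?_)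
    ((summable_w J).mul_right L)
  unfold om
  split_ifs
  · exact mul_le_mul_of_nonneg_left (hL _) (w_nonneg _ _)
  · exact mul_nonneg (w_nonneg _ _) hL0

/-- A free residue class. -/
lemma exists_free {q : ℕ} (hq : q.Prime) (hK : K < q) (h : Fin K → ℕ) :
    ∃ e : ℕ, ∀ i, ¬ q ∣ e + h i := by
  by_contra hcon
  push Not at hcon
  choose f hf using hcon
  have hinj : Function.Injective (fun x : Fin q => f (x : ℕ)) := by
    intro x y hxy
    have h1 := hf x
    have h2 := hf y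
    simp only at hxy
    rw [hxy] at h1
    have h3 : (x : ℕ) + h (f y) ≡ (y : ℕ) + h (f y) [MOD q] :=
      ((Nat.modEq_zero_iff_dvd).mpr h1).trans ((Nat.modEq_zero_iff_dvd).mpr h2).symm
    have h4 := Nat.ModEq.add_right_cancel' _ h3
    rw [Nat.ModEq, Nat.mod_eq_of_lt x.2, Nat.mod_eq_of_lt y.2] at h4
    exact Fin.ext h4
  have := Fintype.card_le_of_injective _ hinj
  rw [Fintype.card_fin, Fintype.card_fin] at this
  omega

lemma lt_of_gk {q : QT V R} (hg : 1 ≤ gk (K + 1) q) : K < (q : ℕ) := by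
  unfold gk at hg
  push_cast at hg
  have : (K : ℝ) < ((q : ℕ) : ℝ) := by linarith
  exact_mod_cast this

/-- The total weight of the big sets. -/
noncomputable def HZ (κ z : ℕ) {V R : ℕ} : ℝ :=
  ∑ U : Finset (QT V R), if (∀ q ∈ U, z < (q : ℕ)) ∧ Opt.nV U ≤ R then 1 / Opt.gV κ U else 0

/-- The indicator weights. -/
noncomputable def xiz (z : ℕ) {V R : ℕ} (U : Finset (QT V R)) : ℝ :=
  if (∀ q ∈ U, z < (q : ℕ)) ∧ Opt.nV U ≤ R then 1 else 0

lemma xiz_nonneg (z : ℕ) (U : Finset (QT V R)) : 0 ≤ xiz z U := by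
  unfold xiz; split_ifs <;> norm_num

lemma xiz_le_one (z : ℕ) (U : Finset (QT V R)) : xiz z U ≤ 1 := by
  unfold xiz; split_ifs <;> norm_num

lemma nV_mono' {U U' : Finset (QT V R)} (h : U ⊆ U') : Opt.nV U ≤ Opt.nV U' := by
  unfold Opt.nV
  exact Nat.le_of_dvd (Finset.prod_pos fun q _ => (qt_prime q).pos)
    (Finset.prod_dvd_prod_of_subset _ _ _ h)

lemma xiz_anti (z : ℕ) (U U' : Finset (QT V R)) (h : U ⊆ U') : xiz z U' ≤ xiz z U := by
  unfold xiz
  by_cases h1 : (∀ q ∈ U', z < (q : ℕ)) ∧ Opt.nV U' ≤ R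
  · rw [if_pos h1, if_pos ⟨fun q hq => h1.1 q (h hq), (nV_mono' h).trans h1.2⟩]
  · rw [if_neg h1]
    split_ifs <;> norm_num

lemma sum_xiz (κ z : ℕ) : ∑ U : Finset (QT V R), (xiz z U) ^ 2 / Opt.gV κ U = HZ κ z (V := V) (R := R) := by
  unfold HZ xiz
  refine Finset.sum_congr rfl fun U _ => ?_
  split_ifs <;> simp

lemma nn_split (U : Finset (QT V R × Option (Fin K))) : nn U = nn (fs U) * Opt.nV (ls U) := by
  unfold nn Opt.nV
  exact prod_split (fun τ : QT V R × Option (Fin K) => (τ.1 : ℕ)) U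

/-- **The third sieve sum**: `c m + j` without prime factors in `(z, R]` (coprime to `V`). -/
theorem S3_le [NeZero W] (hWV : W ∣ V) {h : Fin K → ℕ} (hd : Distinct V R h)
    (hg : ∀ q : QT V R, 1 ≤ gk (K + 1) q) (v : ℕ)
    {y : Finset (QT V R × Fin K) → ℝ}
    (hy0 : ∀ U, 0 ≤ y U) (hy1 : ∀ U, y U ≤ 1) (hya : ∀ U U', U ⊆ U' → y U' ≤ y U)
    (hys : ∀ U, R < nn U → y U = 0) {c z : ℕ} {j : ℤ}
    (hc : ∀ q : QT V R, z < (q : ℕ) → ¬ (q : ℕ) ∣ c)
    (hj : ∀ q : QT V R, z < (q : ℕ) → ∀ i, ¬ ((q : ℕ) : ℤ) ∣ c * h i - j) (J : ℕ)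
    (P : ℕ → Prop) [DecidablePred P]
    (hP : ∀ m, P m → ∀ q : QT V R, z < (q : ℕ) → ¬ ((q : ℕ) : ℤ) ∣ c * m + j) :
    (∑' m, if P m then om W v h y J m else 0) * (HZ (K + 1) z (V := V) (R := R)) ^ 2 ≤
    (∑' m, w J m) / W * (Real.exp (((K : ℝ) + 1) ^ 2 * ∑ q : QT V R, 1 / (gk (K + 1) q) ^ 2) *
        (EEg (K + 1) y * HZ (K + 1) z (V := V) (R := R))) +
      (((R ^ 2 : ℕ) : ℝ) ^ 5 *
        Real.exp (2 * ((K : ℝ) + 1) * ∑ q : QT V R, 1 / ((q : ℕ) : ℝ) ^ 2)) ^ 2 *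
        (4 * ((2 / 3) ^ J * K32)) := by
  have hex : ∀ q : QT V R, ∃ e : ℕ, (∀ i, ¬ (q : ℕ) ∣ e + h i) ∧
      (z < (q : ℕ) → ∀ m : ℕ, m ≡ e [MOD (q : ℕ)] → ((q : ℕ) : ℤ) ∣ c * m + j) := by
    intro q
    by_cases hz : z < (q : ℕ)
    · have hqp : Fact (q : ℕ).Prime := ⟨qt_prime q⟩
      have hcu : ((c : ℕ) : ZMod (q : ℕ)) ≠ 0 := by
        rw [Ne, ZMod.natCast_eq_zero_iff]
        exact hc q hz
      set a : ZMod (q : ℕ) := -(j : ZMod (q : ℕ)) * (c : ZMod (q : ℕ))⁻¹ with ha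
      have hca : (c : ZMod (q : ℕ)) * a + j = 0 := by
        rw [ha]
        field_simp
        ring
      refine ⟨a.val, fun i hi => ?_, fun _ m hm => ?_⟩
      · have h1 : (a : ZMod (q : ℕ)) + h i = 0 := by
          have := (ZMod.natCast_eq_zero_iff (a.val + h i) (q : ℕ)).mpr hi
          push_cast at this
          rwa [ZMod.natCast_zmod_val] at this
        apply hj q hz i
        rw [← ZMod.intCast_zmod_eq_zero_iff_dvd]
        push_cast
        have h2 : (a : ZMod (q : ℕ)) = - (h i : ZMod (q : ℕ)) := eq_neg_of_add_eq_zero_left h1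
        rw [h2] at hca
        linear_combination -hca
      · have h1 : (m : ZMod (q : ℕ)) = a := by
          have := (ZMod.natCast_eq_natCast_iff m a.val (q : ℕ)).mpr hm
          rwa [ZMod.natCast_zmod_val] at this
        rw [← ZMod.intCast_zmod_eq_zero_iff_dvd]
        push_cast
        rw [h1]
        exact hca
    · obtain ⟨e, he⟩ := exists_free (qt_prime q) (lt_of_gk (hg q)) h
      exact ⟨e, he, fun h => absurd h hz⟩
  choose e he1 he2 using hex
  have hs : ∀ U : Finset (QT V R × Option (Fin K)), R ^ 2 < nn U → yext y (xiz z) U = 0 := by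
    intro U hU
    unfold yext
    rw [nn_split] at hU
    by_cases h1 : R < nn (fs U)
    · rw [hys _ h1, zero_mul]
    · have h2 : xiz z (ls U) = 0 := by
        unfold xiz
        rw [if_neg]
        rintro ⟨-, h3⟩
        push Not at h1
        have := Nat.mul_le_mul h1 h3
        rw [← sq] at this
        omega
      rw [h2, mul_zero]
  have hcore := (core hWV hd he1 hg v hy0 hy1 hya (xiz_nonneg z) (xiz_le_one z) (xiz_anti z) hs J).2
  rw [sum_xiz] at hcore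
  refine le_trans ?_ hcore
  have hsum1 : Summable fun m => if P m then om W v h y J m else 0 := by
    refine Summable.of_nonneg_of_le (fun m => ?_) (fun m => ?_) (summable_om W v h y J)
    · split_ifs
      · exact om_nonneg _ _ _ _ _ _
      · exact le_rfl
    · split_ifs
      · exact le_rfl
      · exact om_nonneg _ _ _ _ _ _
  rw [← tsum_mul_right]
  have hsum2 : Summable fun m => if m ≡ v [MOD W] then
      w J m * (AA (gk (K + 1)) (yext y (xiz z)) (Yc (clh h e) m)) ^ 2 else 0 := by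
    obtain ⟨L, hL0, hL⟩ : ∃ L : ℝ, 0 ≤ L ∧ ∀ Y, (AA (gk (K + 1)) (yext y (xiz z)) Y) ^ 2 ≤ L := by
      refine ⟨∑ Y, (AA (gk (K + 1)) (yext y (xiz z)) Y) ^ 2,
        Finset.sum_nonneg fun _ _ => sq_nonneg _, fun Y => ?_⟩
      exact Finset.single_le_sum (f := fun Y => (AA (gk (K + 1)) (yext y (xiz z)) Y) ^ 2)
        (fun _ _ => sq_nonneg _) (Finset.mem_univ Y)
    refine Summable.of_nonneg_of_le (fun m => ?_) (fun m => ?_) ((summable_w J).mul_right L)
    · split_ifs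
      · exact mul_nonneg (w_nonneg _ _) (sq_nonneg _)
      · exact le_rfl
    · split_ifs
      · exact mul_le_mul_of_nonneg_left (hL _) (w_nonneg _ _)
      · exact mul_nonneg (w_nonneg _ _) hL0
  refine Summable.tsum_le_tsum (fun m => ?_) (hsum1.mul_right _) hsum2
  by_cases hm : m ≡ v [MOD W]
  · rw [if_pos hm]
    by_cases hPm : P m
    · rw [if_pos hPm]
      unfold om
      rw [if_pos hm, AA_ext, fs_Yc]
      have h1 : ∑ U : Finset (QT V R), xiz z U *
          ∏ q ∈ U, (if q ∈ ls (Yc (clh h e) m) then -1 else 1 / gk (K + 1) q) =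
          HZ (K + 1) z (V := V) (R := R) := by
        unfold HZ xiz
        refine Finset.sum_congr rfl fun U _ => ?_
        split_ifs with h2
        · rw [one_mul]
          unfold Opt.gV
          rw [one_div, ← Finset.prod_inv_distrib]
          refine Finset.prod_congr rfl fun q hq => ?_
          rw [if_neg, one_div]
          · rfl
          · rw [mem_ls_Yc]
            intro h3
            exact hP m hPm q (h2.1 q hq) (he2 q (h2.1 q hq) m h3)
        · rw [zero_mul]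
      rw [h1, mul_pow]
      apply le_of_eq
      ring
    · rw [if_neg hPm, zero_mul]
      exact mul_nonneg (w_nonneg _ _) (sq_nonneg _)
  · rw [if_neg hm]
    have : om W v h y J m = 0 := by unfold om; rw [if_neg hm]
    rw [this]
    simp

/-- Both bounds for the first sieve sum. -/
theorem S1_bounds [NeZero W] (hWV : W ∣ V) {h : Fin K → ℕ} (hd : Distinct V R h)
    (hg : ∀ q : QT V R, 1 ≤ gk (K + 1) q) (v : ℕ)
    {y : Finset (QT V R × Fin K) → ℝ}
    (hy0 : ∀ U, 0 ≤ y U) (hy1 : ∀ U, y U ≤ 1) (hya : ∀ U U', U ⊆ U' → y U' ≤ y U)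
    (hys : ∀ U, R < nn U → y U = 0) (J : ℕ) :
    (∑' m, w J m) / W * ((1 - 16 * ((K : ℝ) + 1) ^ 2 * ∑ q : QT V R, 1 / (gk (K + 1) q) ^ 2) *
        EEg (K + 1) y) -
      ((R : ℝ) ^ 5 * Real.exp (2 * ((K : ℝ) + 1) * ∑ q : QT V R, 1 / ((q : ℕ) : ℝ) ^ 2)) ^ 2 *
        (4 * ((2 / 3) ^ J * K32)) ≤ ∑' m, om W v h y J m ∧
    ∑' m, om W v h y J m ≤
    (∑' m, w J m) / W * (Real.exp (((K : ℝ) + 1) ^ 2 * ∑ q : QT V R, 1 / (gk (K + 1) q) ^ 2) *
        EEg (K + 1) y) +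
      ((R : ℝ) ^ 5 * Real.exp (2 * ((K : ℝ) + 1) * ∑ q : QT V R, 1 / ((q : ℕ) : ℝ) ^ 2)) ^ 2 *
        (4 * ((2 / 3) ^ J * K32)) := by
  have hex : ∀ q : QT V R, ∃ e : ℕ, ∀ i, ¬ (q : ℕ) ∣ e + h i :=
    fun q => exists_free (qt_prime q) (lt_of_gk (hg q)) h
  choose e he using hex
  set ξ : Finset (QT V R) → ℝ := fun U => if U = ∅ then 1 else 0 with hξ
  have hξ0 : ∀ U, 0 ≤ ξ U := by intro U; rw [hξ]; simp only; split_ifs <;> norm_num
  have hξ1 : ∀ U, ξ U ≤ 1 := by intro U; rw [hξ]; simp only; split_ifs <;> norm_num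
  have hξa : ∀ U U', U ⊆ U' → ξ U' ≤ ξ U := by
    intro U U' hU
    rw [hξ]
    simp only
    by_cases h1 : U' = ∅
    · rw [h1, Finset.subset_empty] at hU
      rw [if_pos h1, if_pos hU]
    · rw [if_neg h1]
      split_ifs <;> norm_num
  have hs : ∀ U : Finset (QT V R × Option (Fin K)), R < nn U → yext y ξ U = 0 := by
    intro U hU
    unfold yext
    by_cases h1 : ls U = ∅
    · rw [nn_split, h1] at hU
      have h2 : Opt.nV (∅ : Finset (QT V R)) = 1 := by simp [Opt.nV]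
      rw [h2, mul_one] at hU
      rw [hys _ hU, zero_mul]
    · rw [hξ]
      simp only
      rw [if_neg h1, mul_zero]
  have hcore := core hWV hd he hg v hy0 hy1 hya hξ0 hξ1 hξa hs J
  have h1 : ∑ U : Finset (QT V R), (ξ U) ^ 2 / Opt.gV (K + 1) U = 1 := by
    rw [Finset.sum_eq_single ∅]
    · simp [hξ, Opt.gV]
    · intro U _ hU
      simp [hξ, hU]
    · intro h
      exact absurd (Finset.mem_univ _) h
  have h2 : (∑' m, if m ≡ v [MOD W] then
      w J m * (AA (gk (K + 1)) (yext y ξ) (Yc (clh h e) m)) ^ 2 else 0) = ∑' m, om W v h y J m := by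
    refine tsum_congr fun m => ?_
    unfold om
    by_cases hm : m ≡ v [MOD W]
    · rw [if_pos hm, if_pos hm, AA_ext, fs_Yc]
      have h3 : ∑ U : Finset (QT V R), ξ U *
          ∏ q ∈ U, (if q ∈ ls (Yc (clh h e) m) then -1 else 1 / gk (K + 1) q) = 1 := by
        rw [Finset.sum_eq_single ∅]
        · simp [hξ]
        · intro U _ hU
          simp [hξ, hU]
        · intro h
          exact absurd (Finset.mem_univ _) h
      rw [h3, mul_one]
    · rw [if_neg hm, if_neg hm]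
  rw [h1, h2, mul_one] at hcore
  exact hcore

end

end Pool.Agent.Helper94.BE
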