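import Mathlib
import Pool.Agent.Helper94.BE.SieveBounds
import Pool.Agent.Helper11.BE.Defs

/-!
The first and third sieve sums, in final form.
-/

open Finset

namespace Pool.Agent.Helper94.BE

open Pool.Agent.Helper11.MT Pool.Agent.Helper99.MT2 Pool.Agent.Helper11.BE

section

variable {W V R K : ℕ}

lemma exp_le_two {x : ℝ} (hx : x ≤ 1 / 2) : Real.exp x ≤ 2 := by
  refine (Real.exp_le_exp.mpr hx).trans ?_
  have := Real.exp_one_lt_d9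
  have h7 : Real.exp (1 / 2 : ℝ) ^ 2 = Real.exp 1 := by
    rw [← Real.exp_nat_mul]; norm_num
  nlinarith [Real.exp_pos (1 / 2 : ℝ)]

lemma scA {Ω W e x : ℝ} (hW : 0 < W) (hΩ0 : 0 ≤ Ω) (hΩ : Ω ≤ 2) (he0 : 0 ≤ e) (he : e ≤ 2)
    (hx : 0 ≤ x) : Ω / W * (e * x) ≤ 4 * x / W := by
  calc Ω / W * (e * x) ≤ 2 / W * (2 * x) := by gcongr
    _ = _ := by ring

lemma scB {a e b : ℝ} (ha : 0 ≤ a) (he0 : 0 ≤ e) (he : e ≤ 2) (hb : 0 ≤ b) :
    (a * e) ^ 2 * (4 * b) ≤ 16 * a ^ 2 * b := by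
  calc (a * e) ^ 2 * (4 * b) ≤ (a * 2) ^ 2 * (4 * b) := by gcongr
    _ = _ := by ring

lemma scC {Ω W t x : ℝ} (hW : 0 < W) (hΩ : 1 / 2 ≤ Ω) (ht : 1 / 2 ≤ t) (hx : 0 ≤ x) :
    x / (4 * W) ≤ Ω / W * (t * x) := by
  calc x / (4 * W) = (1 / 2) / W * ((1 / 2) * x) := by
        field_simp
        ring
    _ ≤ _ := by gcongr

lemma scD {s H E B : ℝ} (hH0 : 0 < H) (hH1 : 1 ≤ H) (hB : 0 ≤ B)
    (h : s * H * H ≤ E * H + B) : s * H ≤ E + B := by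
  have h1 : s * H * H ≤ (E + B) * H := by nlinarith
  exact le_of_mul_le_mul_right h1 hH0

lemma params (hK : 0 < K) (hp : ∀ p : ℕ, p.Prime → p ≤ 256 * (K + 1) ^ 2 → p ∣ V) :
    (∀ q : QT V R, 1 ≤ gk (K + 1) q) ∧
    ((K : ℝ) + 1) ^ 2 * ∑ q : QT V R, 1 / (gk (K + 1) q) ^ 2 ≤ 1 / 32 ∧
    2 * ((K : ℝ) + 1) * ∑ q : QT V R, 1 / ((q : ℕ) : ℝ) ^ 2 ≤ 1 / 2 := by
  have hKr : (1 : ℝ) ≤ K := by exact_mod_cast hK
  have hD : 2 * (K + 1) + 1 ≤ 256 * (K + 1) ^ 2 := by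
    have : K + 1 ≤ (K + 1) ^ 2 := Nat.le_self_pow two_ne_zero _
    omega
  have h1 := param_sum_gk (R := R) (k := K + 1) hp hD
  have h2 := param_sum_inv (R := R) hp
  push_cast at h1 h2
  refine ⟨fun q => (param_gk hp hD q).2, ?_, ?_⟩
  · calc ((K : ℝ) + 1) ^ 2 * ∑ q : QT V R, 1 / (gk (K + 1) q) ^ 2 ≤
        ((K : ℝ) + 1) ^ 2 * (8 / (256 * ((K : ℝ) + 1) ^ 2 + 1)) := by gcongr
      _ ≤ 1 / 32 := by
        rw [← mul_div_assoc, div_le_div_iff₀ (by positivity) (by norm_num)]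
        nlinarith
  · calc 2 * ((K : ℝ) + 1) * ∑ q : QT V R, 1 / ((q : ℕ) : ℝ) ^ 2 ≤
        2 * ((K : ℝ) + 1) * (2 / (256 * ((K : ℝ) + 1) ^ 2 + 1)) := by gcongr
      _ ≤ 1 / 2 := by
        rw [← mul_div_assoc, div_le_div_iff₀ (by positivity) (by norm_num)]
        nlinarith

lemma EEg_nonneg (hg : ∀ q : QT V R, 1 ≤ gk (K + 1) q) (y : Finset (QT V R × Fin K) → ℝ) :
    0 ≤ EEg (K + 1) y := by
  unfold EEg
  refine Finset.sum_nonneg fun U _ => div_nonneg (sq_nonneg _) ?_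
  unfold gg
  exact Finset.prod_nonneg fun τ _ => zero_le_one.trans (hg τ.1)

lemma gV_pos' (hg : ∀ q : QT V R, 1 ≤ gk (K + 1) q) (U : Finset (QT V R)) :
    0 < Opt.gV (K + 1) U := by
  unfold Opt.gV
  exact Finset.prod_pos fun q _ => lt_of_lt_of_le zero_lt_one (hg q)

lemma one_le_HZ (hg : ∀ q : QT V R, 1 ≤ gk (K + 1) q) (hR : 0 < R) (z : ℕ) :
    1 ≤ Pool.Agent.Helper11.BE.HZ (K + 1) V R z := by
  unfold Pool.Agent.Helper11.BE.HZ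
  have hnn : ∀ T : Finset (QT V R), 0 ≤
      (if (∀ q ∈ T, z < (q : ℕ)) ∧ Opt.nV T ≤ R then 1 / Opt.gV (K + 1) T else 0) := by
    intro T
    split_ifs
    · exact (one_div_pos.mpr (gV_pos' hg T)).le
    · exact le_rfl
  have h2 := Finset.single_le_sum (f := fun T : Finset (QT V R) =>
      if (∀ q ∈ T, z < (q : ℕ)) ∧ Opt.nV T ≤ R then 1 / Opt.gV (K + 1) T else 0)
      (fun T _ => hnn T) (Finset.mem_univ ∅)
  refine le_trans (le_of_eq ?_) h2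
  rw [if_pos]
  · simp [Opt.gV]
  · refine ⟨by simp, ?_⟩
    unfold Opt.nV
    rw [Finset.prod_empty]
    exact hR

/-- **The third sieve sum.** -/
theorem s3 : S3Statement := by
  intro K hK h V W R Z J v c j hW hWV hR hp hd hc hj hΩ y hy0 hy1 hya hys
  have : NeZero W := ⟨hW.ne'⟩
  obtain ⟨hg, hs1, hs2⟩ := params (R := R) hK hp
  classical
  have hmain := S3_le hWV hd hg v hy0 hy1 hya hys (c := c) (z := Z) (j := j)
    (fun q hq => hc q q.2 hq) (fun q hq i hdvd => hj q q.2 hq i (by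
      have := (dvd_neg (a := ((q : ℕ) : ℤ))).mpr hdvd
      rwa [neg_sub] at this)) J
    (fun m => ∀ q ∈ PR V R, Z < q → ¬ ((q : ℤ) ∣ c * m + j))
    (fun m hm q hq => hm q q.2 hq)
  have hH : HZ (K + 1) Z (V := V) (R := R) = Pool.Agent.Helper11.BE.HZ (K + 1) V R Z := rfl
  rw [hH] at hmain
  have hH1 := one_le_HZ hg hR Z
  set H := Pool.Agent.Helper11.BE.HZ (K + 1) V R Z with hHdef
  have hH0 : 0 < H := by linarith
  have hE := EEg_nonneg hg y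
  have hS : S3 W v c j Z J h y = ∑' m : ℕ, if (∀ q ∈ PR V R, Z < q → ¬ ((q : ℤ) ∣ c * m + j)) then
      om W v h y J m else 0 := by
    unfold S3
    refine tsum_congr fun m => ?_
    unfold om G0
    by_cases h1 : m ≡ v [MOD W]
    · by_cases h2 : ∀ q ∈ PR V R, Z < q → ¬ ((q : ℤ) ∣ c * m + j)
      · rw [if_pos ⟨h1, h2⟩, if_pos h2, if_pos h1]
      · rw [if_neg (fun h => h2 h.2), if_neg h2]
    · rw [if_neg (fun h => h1 h.1), if_neg h1]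
      simp
  have hS' : (∑' m : ℕ, if (∀ q ∈ PR V R, Z < q → ¬ ((q : ℤ) ∣ c * m + j)) then
      om W v h y J m else 0) = S3 W v c j Z J h y := hS.symm
  have hK32 := K32_nonneg
  have hWr : (0 : ℝ) < W := by exact_mod_cast hW
  have hb0 : 0 ≤ (2 / 3 : ℝ) ^ J * K32 := mul_nonneg (by positivity) hK32
  have hA : (∑' m, w J m) / W * (Real.exp (((K : ℝ) + 1) ^ 2 *
      ∑ q : QT V R, 1 / (gk (K + 1) q) ^ 2) * (EEg (K + 1) y * H)) ≤ 4 * EEg (K + 1) y / W * H := by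
    have h1 := exp_le_two (hs1.trans (by norm_num))
    have hΩ0 : 0 ≤ ∑' m, w J m := tsum_nonneg fun m => w_nonneg _ _
    exact (scA hWr hΩ0 hΩ (Real.exp_pos _).le h1 (mul_nonneg hE hH0.le)).trans_eq (by ring)
  have hB : (((R ^ 2 : ℕ) : ℝ) ^ 5 *
        Real.exp (2 * ((K : ℝ) + 1) * ∑ q : QT V R, 1 / ((q : ℕ) : ℝ) ^ 2)) ^ 2 *
        (4 * ((2 / 3) ^ J * K32)) ≤ 16 * (R : ℝ) ^ 20 * ((2 / 3) ^ J * K32) := by
    exact (scB (by positivity) (Real.exp_pos _).le (exp_le_two hs2) hb0).trans_eq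
      (by push_cast; ring)
  have hB0 : 0 ≤ 16 * (R : ℝ) ^ 20 * ((2 / 3) ^ J * K32) :=
    mul_nonneg (by positivity) hb0
  have hconv : (∑' m : ℕ, if (∀ q ∈ PR V R, Z < q → ¬ ((q : ℤ) ∣ c * m + j)) then
      om W v h y J m else 0) * H ^ 2 ≤ 4 * EEg (K + 1) y / W * H +
      16 * (R : ℝ) ^ 20 * ((2 / 3) ^ J * K32) := by
    refine le_trans (le_of_eq ?_) (hmain.trans (add_le_add hA hB))
    rfl
  rw [hS', sq, ← mul_assoc] at hconv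
  rw [le_div_iff₀ hH0]
  exact scD hH0 hH1 hB0 hconv

/-- Both bounds for the first sieve sum. -/
theorem s1 (hK : 0 < K) (h : Fin K → ℕ) (J v : ℕ) (hW : 0 < W) (hWV : W ∣ V)
    (hp : ∀ p : ℕ, p.Prime → p ≤ 256 * (K + 1) ^ 2 → p ∣ V) (hd : Distinct V R h)
    (hΩ1 : 1 / 2 ≤ ∑' n, w J n) (hΩ2 : ∑' n, w J n ≤ 2)
    (y : Finset (QT V R × Fin K) → ℝ) (hy0 : ∀ U, 0 ≤ y U) (hy1 : ∀ U, y U ≤ 1)
    (hya : ∀ U U', U ⊆ U' → y U' ≤ y U) (hys : ∀ U, R < nn U → y U = 0) :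
    EEg (K + 1) y / (4 * W) - 16 * (R : ℝ) ^ 10 * ((2 / 3) ^ J * K32) ≤
      (∑' m, if m ≡ v [MOD W] then w J m * (G0 h y m) ^ 2 else 0) ∧
    (∑' m, if m ≡ v [MOD W] then w J m * (G0 h y m) ^ 2 else 0) ≤
      4 * EEg (K + 1) y / W + 16 * (R : ℝ) ^ 10 * ((2 / 3) ^ J * K32) := by
  have : NeZero W := ⟨hW.ne'⟩
  obtain ⟨hg, hs1, hs2⟩ := params (R := R) hK hp
  obtain ⟨h1, h2⟩ := S1_bounds hWV hd hg v hy0 hy1 hya hys J
  have hE := EEg_nonneg hg y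
  have hK32 := K32_nonneg
  have hWr : (0 : ℝ) < W := by exact_mod_cast hW
  have hb0 : 0 ≤ (2 / 3 : ℝ) ^ J * K32 := mul_nonneg (by positivity) hK32
  have hB : ((R : ℝ) ^ 5 *
        Real.exp (2 * ((K : ℝ) + 1) * ∑ q : QT V R, 1 / ((q : ℕ) : ℝ) ^ 2)) ^ 2 *
        (4 * ((2 / 3) ^ J * K32)) ≤ 16 * (R : ℝ) ^ 10 * ((2 / 3) ^ J * K32) := by
    exact (scB (by positivity) (Real.exp_pos _).le (exp_le_two hs2) hb0).trans_eq (by ring)
  have hA : (∑' m, w J m) / W * (Real.exp (((K : ℝ) + 1) ^ 2 *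
      ∑ q : QT V R, 1 / (gk (K + 1) q) ^ 2) * EEg (K + 1) y) ≤ 4 * EEg (K + 1) y / W := by
    have h1 := exp_le_two (hs1.trans (by norm_num))
    have hΩ0 : 0 ≤ ∑' m, w J m := tsum_nonneg fun m => w_nonneg _ _
    exact scA hWr hΩ0 hΩ2 (Real.exp_pos _).le h1 hE
  have hC : EEg (K + 1) y / (4 * W) ≤ (∑' m, w J m) / W * ((1 - 16 * ((K : ℝ) + 1) ^ 2 *
      ∑ q : QT V R, 1 / (gk (K + 1) q) ^ 2) * EEg (K + 1) y) := by
    have h3 : (1 / 2 : ℝ) ≤ 1 - 16 * ((K : ℝ) + 1) ^ 2 *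
        ∑ q : QT V R, 1 / (gk (K + 1) q) ^ 2 := by linarith
    exact scC hWr hΩ1 h3 hE
  have h4 : (∑' m, if m ≡ v [MOD W] then w J m * (G0 h y m) ^ 2 else 0) =
      ∑' m, om W v h y J m := rfl
  rw [h4]
  constructor
  · linarith
  · linarith

/-- The pointwise bound. -/
theorem G0_sq_le (hK : 0 < K) (h : Fin K → ℕ)
    (hp : ∀ p : ℕ, p.Prime → p ≤ 256 * (K + 1) ^ 2 → p ∣ V)
    (y : Finset (QT V R × Fin K) → ℝ) (hy0 : ∀ U, 0 ≤ y U) (hy1 : ∀ U, y U ≤ 1)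
    (hys : ∀ U, R < nn U → y U = 0) (m : ℕ) : (G0 h y m) ^ 2 ≤ 4 * (R : ℝ) ^ 10 := by
  obtain ⟨hg, -, hs2⟩ := params (R := R) hK hp
  obtain ⟨lam, hlam1, -, hlam3⟩ := lambda (QT V R) (Fin K) (gk (K + 1)) hg y
    (fun q => (q : ℕ)) (fun q => by
      unfold gk
      push_cast
      have : (0 : ℝ) ≤ K := Nat.cast_nonneg _
      linarith) R (fun U => by
        rw [abs_of_nonneg (hy0 U)]
        exact hy1 U) hys
  rw [Fintype.card_fin] at hlam3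
  have hs0 : 0 ≤ ∑ q : QT V R, 1 / ((q : ℕ) : ℝ) ^ 2 := Finset.sum_nonneg fun q _ => by positivity
  have h1 : Real.exp (2 * (K : ℝ) * ∑ q : QT V R, 1 / ((q : ℕ) : ℝ) ^ 2) ≤ 2 := by
    refine exp_le_two (le_trans ?_ hs2)
    gcongr
    linarith
  have h2 : ∑ D, |lam D| ≤ (R : ℝ) ^ 5 * 2 := hlam3.trans (by gcongr)
  unfold G0
  rw [hlam1, ← sq_abs]
  have h3 : |∑ D ∈ (Ymap h m).powerset, lam D| ≤ (R : ℝ) ^ 5 * 2 := by
    refine (Finset.abs_sum_le_sum_abs _ _).trans (le_trans ?_ h2)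
    exact Finset.sum_le_sum_of_subset_of_nonneg (Finset.subset_univ _) fun _ _ _ => abs_nonneg _
  calc |∑ D ∈ (Ymap h m).powerset, lam D| ^ 2 ≤ ((R : ℝ) ^ 5 * 2) ^ 2 :=
        pow_le_pow_left₀ (abs_nonneg _) h3 2
    _ = _ := by ring

end

end Pool.Agent.Helper94.BE
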