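import Mathlib
import Pool.Agent.Helper11.MT.LBound2

/-!
Mertens-type bounds: `∑_{p ≤ n} log p / p ≤ log n + log 4` and `∏_{p ≤ z} (1 - 1/p) ≥ c / log z`.
-/

open Finset

namespace Pool.Agent.Helper94.Mertens

lemma sum_log_div_le {n : ℕ} (hn : 1 ≤ n) :
    ∑ p ∈ (range (n + 1)).filter Nat.Prime, Real.log p / p ≤ Real.log n + Real.log 4 := by
  have hn' : (0 : ℝ) < n := by exact_mod_cast hn
  set P := (range (n + 1)).filter Nat.Prime with hP
  have hprime : ∀ p ∈ P, p.Prime := fun p hp => (Finset.mem_filter.mp hp).2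
  have hdvd : ∏ p ∈ P, p ^ (n / p) ∣ n.factorial := by
    refine Finset.prod_dvd_of_isRelPrime (fun p hp q hq hpq => ?_) (fun p hp => ?_)
    · exact Nat.coprime_iff_isRelPrime.mp (Nat.Coprime.pow _ _
        ((Nat.coprime_primes (hprime p hp) (hprime q hq)).mpr hpq))
    · rw [(hprime p hp).pow_dvd_factorial_iff (b := Nat.log p n + 2) (by omega)]
      have h1 : n / p ^ 1 ≤ ∑ i ∈ Finset.Ico 1 (Nat.log p n + 2), n / p ^ i :=
        Finset.single_le_sum (f := fun i => n / p ^ i) (fun _ _ => Nat.zero_le _)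
          (Finset.mem_Ico.mpr ⟨le_rfl, by omega⟩)
      rwa [pow_one] at h1
  have h1 : ((∏ p ∈ P, p ^ (n / p) : ℕ) : ℝ) ≤ (n.factorial : ℝ) := by
    exact_mod_cast Nat.le_of_dvd n.factorial_pos hdvd
  have h2 : (n.factorial : ℝ) ≤ (n : ℝ) ^ n := by exact_mod_cast Nat.factorial_le_pow n
  have hpos : (0 : ℝ) < ((∏ p ∈ P, p ^ (n / p) : ℕ) : ℝ) := by
    have : 0 < ∏ p ∈ P, p ^ (n / p) := Finset.prod_pos fun p hp => pow_pos (hprime p hp).pos _
    exact_mod_cast this
  have h3 := Real.log_le_log hpos (h1.trans h2)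
  rw [Real.log_pow] at h3
  push_cast at h3
  rw [Real.log_prod (fun p hp => by
    have : (0 : ℝ) < p := by exact_mod_cast (hprime p hp).pos
    positivity)] at h3
  simp only [Real.log_pow] at h3
  have h4 : ∀ p ∈ P, (n : ℝ) * (Real.log p / p) - Real.log p ≤ ((n / p : ℕ) : ℝ) * Real.log p := by
    intro p hp
    have hp0 : (0 : ℝ) < p := by exact_mod_cast (hprime p hp).pos
    have hlog : 0 ≤ Real.log p := Real.log_nonneg (by exact_mod_cast (hprime p hp).one_le)
    have h5 : (n : ℝ) / p - 1 ≤ ((n / p : ℕ) : ℝ) := by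
      have h6 : n < p * (n / p + 1) := Nat.lt_mul_div_succ n (hprime p hp).pos
      have h7 : (n : ℝ) < p * (((n / p : ℕ) : ℝ) + 1) := by exact_mod_cast h6
      have h8 : (n : ℝ) / p < ((n / p : ℕ) : ℝ) + 1 := by
        rw [div_lt_iff₀ hp0]
        linarith
      linarith
    calc (n : ℝ) * (Real.log p / p) - Real.log p = ((n : ℝ) / p - 1) * Real.log p := by
          field_simp
      _ ≤ _ := mul_le_mul_of_nonneg_right h5 hlog
  have h5 := Finset.sum_le_sum h4
  rw [Finset.sum_sub_distrib, ← Finset.mul_sum] at h5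
  have h6 : ∑ p ∈ P, Real.log p ≤ Real.log 4 * n := by
    have h7 := Chebyshev.theta_le_log4_mul_x (x := (n : ℝ)) hn'.le
    refine le_trans (le_of_eq ?_) h7
    rw [Chebyshev.theta_eq_sum_Icc, Nat.floor_natCast]
    refine Finset.sum_congr ?_ fun _ _ => rfl
    ext p
    rw [hP, Finset.mem_filter, Finset.mem_filter, Finset.mem_range, Finset.mem_Icc]
    constructor
    · rintro ⟨h8, h9⟩
      exact ⟨⟨Nat.zero_le _, by omega⟩, h9⟩
    · rintro ⟨⟨-, h8⟩, h9⟩
      exact ⟨by omega, h9⟩
  have h7 : (n : ℝ) * ∑ p ∈ P, Real.log p / p ≤ n * (Real.log n + Real.log 4) := by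
    linarith
  exact le_of_mul_le_mul_left h7 hn'

/-- The Mertens-type lower bound. -/
theorem exists_mertens : ∃ c : ℝ, 0 < c ∧ ∀ z : ℕ, 2 ≤ z →
    c / Real.log z ≤ ∏ p ∈ (range (z + 1)).filter Nat.Prime, (1 - 1 / (p : ℝ)) := by
  obtain ⟨C, hC1, hC⟩ := Pool.Agent.Helper11.MT.exists_zeta_bound
  refine ⟨Real.exp (-6) / C, by positivity, fun z hz => ?_⟩
  have hz' : (2 : ℝ) ≤ z := by exact_mod_cast hz
  set L : ℝ := Real.log z with hL
  have hL2 : Real.log 2 ≤ L := Real.log_le_log (by norm_num) hz'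
  have hlog2 : (0.69 : ℝ) < Real.log 2 := by
    have := Real.log_two_gt_d9
    linarith
  have hLpos : 0 < L := by linarith
  set σ : ℝ := 1 + 1 / L with hσ
  have hσ1 : 1 < σ := by
    rw [hσ]
    have : 0 < 1 / L := by positivity
    linarith
  set P := (range (z + 1)).filter Nat.Prime with hP
  have hprime : ∀ p ∈ P, p.Prime := fun p hp => (Finset.mem_filter.mp hp).2
  -- the Euler product
  let f : ℕ →* ℝ :=
    { toFun := fun n => (n : ℝ) ^ (-σ)
      map_one' := by simp
      map_mul' := fun a b => by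
        push_cast
        exact Real.mul_rpow (Nat.cast_nonneg _) (Nat.cast_nonneg _) }
  have hf : ∀ n, f n = (n : ℝ) ^ (-σ) := fun _ => rfl
  have hsum : Summable f := by
    have : (f : ℕ → ℝ) = fun n : ℕ => (n : ℝ) ^ (-σ) := rfl
    rw [this]
    exact Real.summable_nat_rpow.mpr (by linarith)
  have hE := EulerProduct.prod_filter_prime_geometric_eq_tsum_factoredNumbers hsum (range (z + 1))
  have hzeta : ∏ p ∈ P, (1 - f p)⁻¹ ≤ C * L := by
    rw [hP, hE]
    have h1 : ∑' m : Nat.factoredNumbers (range (z + 1)), f m ≤ ∑' m : ℕ, f m := by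
      refine Summable.tsum_subtype_le (f := fun n => f n) _ (fun n => ?_) hsum
      rw [hf]
      positivity
    refine h1.trans ?_
    have h2 : ((∑' n : ℕ, f n : ℝ) : ℂ) = riemannZeta (1 + (1 / L : ℝ)) := by
      have h3 : 1 < (1 + ((1 / L : ℝ) : ℂ)).re := by
        rw [Complex.add_re, Complex.one_re, Complex.ofReal_re]
        linarith
      rw [zeta_eq_tsum_one_div_nat_cpow h3, Complex.ofReal_tsum]
      refine tsum_congr fun n => ?_
      rw [hf, Complex.ofReal_cpow (Nat.cast_nonneg _), Complex.ofReal_neg, Complex.cpow_neg,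
        one_div, hσ]
      push_cast
      rfl
    have h3 := hC (1 / L) (by positivity) (by
      rw [div_le_iff₀ hLpos]
      linarith)
    rw [← h2, Complex.norm_real] at h3
    refine (Real.le_norm_self _).trans (h3.trans (le_of_eq ?_))
    field_simp
  -- the comparison
  have hcomp : ∀ p ∈ P, (1 - 1 / (p : ℝ))⁻¹ ≤
      (1 - f p)⁻¹ * Real.exp (2 / L * (Real.log p / p)) := by
    intro p hp
    have hp2 : (2 : ℝ) ≤ p := by exact_mod_cast (hprime p hp).two_le
    have hp0 : (0 : ℝ) < p := by linarith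
    have h1 : 1 / (p : ℝ) ≤ 1 / 2 := one_div_le_one_div_of_le (by norm_num) hp2
    have h2 : 0 < 1 - 1 / (p : ℝ) := by linarith
    have e1 : f p = 1 / (p : ℝ) * Real.exp (-(Real.log p / L)) := by
      rw [hf, hσ, Real.rpow_neg hp0.le, Real.rpow_add hp0, Real.rpow_one, mul_inv, one_div (p : ℝ)]
      congr 1
      rw [← Real.rpow_neg hp0.le, Real.rpow_def_of_pos hp0]
      congr 1
      ring
    have h3 : 1 - Real.log p / L ≤ Real.exp (-(Real.log p / L)) := by
      have := Real.add_one_le_exp (-(Real.log p / L))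
      linarith
    have hlogp : 0 ≤ Real.log p := Real.log_nonneg (by linarith)
    have h4 : Real.exp (-(Real.log p / L)) ≤ 1 := by
      rw [Real.exp_le_one_iff]
      have : 0 ≤ Real.log p / L := by positivity
      linarith
    have hfp1 : f p ≤ 1 / (p : ℝ) := by
      rw [e1]
      exact mul_le_of_le_one_right (by positivity) h4
    have h5 : 0 < 1 - f p := by linarith
    rw [inv_mul_eq_div, le_div_iff₀ h5, inv_mul_le_iff₀ h2]
    have h6 : 1 + 2 / L * (Real.log p / p) ≤ Real.exp (2 / L * (Real.log p / p)) := by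
      have := Real.add_one_le_exp (2 / L * (Real.log p / p))
      linarith
    have h7 : 1 - f p ≤ (1 - 1 / (p : ℝ)) * (1 + 2 / L * (Real.log p / p)) := by
      have h8 : 1 / (p : ℝ) - f p ≤ 1 / p * (Real.log p / L) := by
        rw [e1]
        have : 1 / (p : ℝ) - 1 / p * Real.exp (-(Real.log p / L)) =
            1 / p * (1 - Real.exp (-(Real.log p / L))) := by ring
        rw [this]
        refine mul_le_mul_of_nonneg_left ?_ (by positivity)
        linarith
      have h9 : 1 / (p : ℝ) * (Real.log p / L) ≤ (1 - 1 / (p : ℝ)) * (2 / L * (Real.log p / p)) := by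
        have h10 : 0 ≤ 1 / (p : ℝ) * (Real.log p / L) := by positivity
        have e2 : (1 - 1 / (p : ℝ)) * (2 / L * (Real.log p / p)) =
            2 * (1 - 1 / (p : ℝ)) * (1 / (p : ℝ) * (Real.log p / L)) := by ring
        rw [e2]
        nlinarith
      nlinarith
    exact h7.trans (mul_le_mul_of_nonneg_left h6 h2.le)
  have hprod : ∏ p ∈ P, (1 - 1 / (p : ℝ))⁻¹ ≤ C * L * Real.exp 6 := by
    refine (Finset.prod_le_prod (fun p hp => ?_) hcomp).trans ?_
    · have hp2 : (2 : ℝ) ≤ p := by exact_mod_cast (hprime p hp).two_le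
      have h1 : 1 / (p : ℝ) ≤ 1 / 2 := one_div_le_one_div_of_le (by norm_num) hp2
      rw [inv_nonneg]
      linarith
    · rw [Finset.prod_mul_distrib, ← Real.exp_sum, ← Finset.mul_sum]
      have h1 := sum_log_div_le (n := z) (by omega)
      have h2 : 2 / L * ∑ p ∈ P, Real.log p / p ≤ 6 := by
        have h3 : Real.log 4 ≤ 2 * L := by
          have : Real.log 4 = 2 * Real.log 2 := by
            rw [show (4 : ℝ) = 2 ^ 2 by norm_num, Real.log_pow]
            push_cast
            ring
          linarith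
        calc 2 / L * ∑ p ∈ P, Real.log p / p ≤ 2 / L * (L + Real.log 4) := by gcongr
          _ ≤ 2 / L * (L + 2 * L) := by gcongr
          _ = 6 := by field_simp; norm_num
      have h4 : 0 ≤ ∏ p ∈ P, (1 - f p)⁻¹ := by
        refine Finset.prod_nonneg fun p hp => inv_nonneg.mpr ?_
        have hp1 : (1 : ℝ) ≤ p := by exact_mod_cast (hprime p hp).one_le
        have : f p ≤ 1 := by
          rw [hf]
          exact Real.rpow_le_one_of_one_le_of_nonpos hp1 (by linarith)
        linarith
      have h5 : 0 ≤ C * L := by positivity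
      exact mul_le_mul hzeta (Real.exp_le_exp.mpr h2) (Real.exp_pos _).le h5
  have hpos : 0 < ∏ p ∈ P, (1 - 1 / (p : ℝ)) := by
    refine Finset.prod_pos fun p hp => ?_
    have hp2 : (2 : ℝ) ≤ p := by exact_mod_cast (hprime p hp).two_le
    have h1 : 1 / (p : ℝ) ≤ 1 / 2 := one_div_le_one_div_of_le (by norm_num) hp2
    linarith
  have hCL : 0 < C * L * Real.exp 6 := by positivity
  rw [Finset.prod_inv_distrib] at hprod
  replace hprod := (inv_le_comm₀ hpos hCL).mp hprod
  refine le_trans (le_of_eq ?_) hprod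
  rw [Real.exp_neg]
  have hC0 : 0 < C := by linarith
  field_simp

end Pool.Agent.Helper94.Mertens
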