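import Mathlib
import Pool.Agent.Helper94.BE.Mertens
import Pool.Agent.Helper11.BE.Defs

/-!
The totient bound `TotStatement` and the lower bound `HZStatement` of the normalising factor.
-/

open Finset Filter Topology

namespace Pool.Agent.Helper94.BE

open Pool.Agent.Helper11.MT Pool.Agent.Helper99.MT2 Pool.Agent.Helper11.BE
open Pool.Agent.Helper94.Mertens

lemma totient_div_eq {n : ℕ} (hn : 0 < n) :
    (Nat.totient n : ℝ) / n = ∏ p ∈ n.primeFactors, (1 - 1 / (p : ℝ)) := by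
  have h1 := Nat.totient_eq_mul_prod_factors n
  have h2 : (Nat.totient n : ℝ) = (n : ℝ) * ∏ p ∈ n.primeFactors, (1 - ((p : ℝ))⁻¹) := by
    have h3 := congrArg (fun q : ℚ => (q : ℝ)) h1
    push_cast at h3
    exact h3
  have hn' : (0 : ℝ) < n := by exact_mod_cast hn
  rw [h2, mul_div_cancel_left₀ _ hn'.ne']
  simp only [one_div]

lemma Wf_dvd {y pe p : ℕ} (hp : p.Prime) (hpy : p ≤ y) : p ∣ Wf y pe * pe := by
  by_cases h : p = pe
  · rw [h]; exact dvd_mul_left _ _
  · refine Dvd.dvd.mul_right ?_ _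
    unfold Wf
    exact Finset.dvd_prod_of_mem (fun q => q)
      (Finset.mem_filter.mpr ⟨Finset.mem_range.mpr (by omega), hp, h⟩)

lemma dvd_Wf_iff {y pe p : ℕ} (hp : p.Prime) (hpe : pe.Prime) :
    p ∣ Wf y pe * pe ↔ p ≤ y ∨ p = pe := by
  constructor
  · intro h
    rcases (Nat.Prime.dvd_mul hp).mp h with h | h
    · left
      unfold Wf at h
      obtain ⟨q, hq, hpq⟩ := (Prime.dvd_finsetProd_iff hp.prime _).mp h
      rw [Finset.mem_filter, Finset.mem_range] at hq
      have := (Nat.prime_dvd_prime_iff_eq hp hq.2.1).mp hpq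
      omega
    · right
      exact (Nat.prime_dvd_prime_iff_eq hp hpe).mp h
  · rintro (h | h)
    · exact Wf_dvd hp h
    · rw [h]; exact dvd_mul_left _ _

lemma Wf_mul_pos {y pe : ℕ} (hpe : pe.Prime) : 0 < Wf y pe * pe := by
  refine Nat.mul_pos ?_ hpe.pos
  unfold Wf
  exact Finset.prod_pos fun p hp => (Finset.mem_filter.mp hp).2.1.pos

/-- Lower bound of `φ(V) / V` for `V = Wf z pe * pe`. -/
lemma totient_ge {c : ℝ}
    (hc : ∀ z : ℕ, 2 ≤ z →
      c / Real.log z ≤ ∏ p ∈ (range (z + 1)).filter Nat.Prime, (1 - 1 / (p : ℝ)))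
    {z pe : ℕ} (hz : 2 ≤ z) (hpe : pe.Prime) :
    c / 2 / Real.log z ≤ (Nat.totient (Wf z pe * pe) : ℝ) / ((Wf z pe * pe : ℕ) : ℝ) := by
  rw [totient_div_eq (Wf_mul_pos hpe)]
  set P := (range (z + 1)).filter Nat.Prime with hP
  have hprime : ∀ p ∈ P, p.Prime := fun p hp => (Finset.mem_filter.mp hp).2
  have hfac : ∀ p : ℕ, p.Prime → 1 / 2 ≤ 1 - 1 / (p : ℝ) ∧ 1 - 1 / (p : ℝ) ≤ 1 := by
    intro p hp
    have hp2 : (2 : ℝ) ≤ p := by exact_mod_cast hp.two_le
    have h1 : 1 / (p : ℝ) ≤ 1 / 2 := one_div_le_one_div_of_le (by norm_num) hp2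
    have h2 : 0 < 1 / (p : ℝ) := by positivity
    constructor <;> linarith
  have hpf : (Wf z pe * pe).primeFactors = insert pe P := by
    ext p
    rw [Nat.mem_primeFactors_of_ne_zero (Wf_mul_pos hpe).ne', Finset.mem_insert, hP,
      Finset.mem_filter, Finset.mem_range]
    constructor
    · rintro ⟨h1, h2⟩
      rcases (dvd_Wf_iff h1 hpe).mp h2 with h | h
      · right; exact ⟨by omega, h1⟩
      · left; exact h
    · rintro (h | ⟨h1, h2⟩)
      · rw [h]; exact ⟨hpe, dvd_mul_left _ _⟩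
      · exact ⟨h2, (dvd_Wf_iff h2 hpe).mpr (Or.inl (by omega))⟩
  rw [hpf]
  have h1 := hc z hz
  have hpos : 0 ≤ ∏ p ∈ P, (1 - 1 / (p : ℝ)) :=
    Finset.prod_nonneg fun p hp => by linarith [(hfac p (hprime p hp)).1]
  have h2 : 1 / 2 * ∏ p ∈ P, (1 - 1 / (p : ℝ)) ≤ ∏ p ∈ insert pe P, (1 - 1 / (p : ℝ)) := by
    by_cases h : pe ∈ P
    · rw [Finset.insert_eq_of_mem h]
      linarith
    · rw [Finset.prod_insert h]
      exact mul_le_mul_of_nonneg_right (hfac pe hpe).1 hpos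
  refine le_trans ?_ h2
  have e1 : c / 2 / Real.log z = 1 / 2 * (c / Real.log z) := by ring
  rw [e1]
  linarith

lemma two_le_yJ : ∀ᶠ J : ℕ in atTop, 2 ≤ yJ J := by
  have h1 : Tendsto (fun J : ℕ => Real.log (J : ℝ)) atTop atTop :=
    Real.tendsto_log_atTop.comp tendsto_natCast_atTop_atTop
  filter_upwards [h1.eventually_ge_atTop 4] with J hJ
  have hJ0 : (0 : ℝ) < J := by
    rcases Nat.eq_zero_or_pos J with h | h
    · subst h
      norm_num at hJ
    · exact_mod_cast h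
  unfold yJ
  refine Nat.le_floor ?_
  set l := Real.log (J : ℝ) with hl
  have h2 : Real.sqrt l ≤ l / 2 := by
    rw [Real.sqrt_le_left (by linarith)]
    nlinarith
  have h3 : (J : ℝ) = Real.exp l := (Real.exp_log hJ0).symm
  have h4 : Real.exp (l / 2) ≤ J * Real.exp (-Real.sqrt l) := by
    rw [h3, ← Real.exp_add]
    exact Real.exp_le_exp.mpr (by linarith)
  have h5 : l / 2 + 1 ≤ Real.exp (l / 2) := Real.add_one_le_exp _
  push_cast
  linarith

lemma yJ_le_self {J : ℕ} : yJ J ≤ J := by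
  unfold yJ
  refine Nat.floor_le_of_le ?_
  have h1 : Real.exp (-Real.sqrt (Real.log J)) ≤ 1 := by
    rw [Real.exp_le_one_iff]
    have := Real.sqrt_nonneg (Real.log (J : ℝ))
    linarith
  exact mul_le_of_le_one_right (Nat.cast_nonneg _) h1

/-- Lower bound for `φ(V) / V`. -/
theorem tot : TotStatement := by
  obtain ⟨c, hc0, hc⟩ := exists_mertens
  refine ⟨c / 2, by positivity, ?_⟩
  filter_upwards [two_le_yJ] with J hJ pe hpe
  refine le_trans ?_ (totient_ge hc hJ hpe)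
  have h1 : (2 : ℝ) ≤ yJ J := by exact_mod_cast hJ
  have h2 : 0 < Real.log (yJ J) := Real.log_pos (by linarith)
  have h3 : Real.log (yJ J) ≤ Real.log J :=
    Real.log_le_log (by linarith) (by exact_mod_cast yJ_le_self)
  exact div_le_div_of_nonneg_left (by positivity) h2 h3

lemma log_RK : ∀ᶠ J : ℕ in atTop, (J : ℝ) / 2000 ≤ Real.log (RK J) := by
  filter_upwards [eventually_ge_atTop 2000] with J hJ
  have hJ' : (2000 : ℝ) ≤ J := by exact_mod_cast hJ
  unfold RK
  have h1 : Real.exp ((J : ℝ) / 1000) - 1 < (⌊Real.exp ((J : ℝ) / 1000)⌋₊ : ℝ) :=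
    Nat.sub_one_lt_floor _
  have h2 : Real.exp ((J : ℝ) / 2000) ≤ Real.exp ((J : ℝ) / 1000) - 1 := by
    have e1 : Real.exp ((J : ℝ) / 1000) = Real.exp ((J : ℝ) / 2000) * Real.exp ((J : ℝ) / 2000) := by
      rw [← Real.exp_add]
      congr 1
      ring
    have h3 : (2 : ℝ) ≤ Real.exp ((J : ℝ) / 2000) := by
      have := Real.add_one_le_exp ((J : ℝ) / 2000)
      have h4 : (1 : ℝ) ≤ (J : ℝ) / 2000 := by
        rw [le_div_iff₀ (by norm_num)]
        linarith
      linarith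
    rw [e1]
    nlinarith
  rw [Real.le_log_iff_exp_le (by
    have := Real.exp_pos ((J : ℝ) / 2000)
    linarith)]
  linarith

/-- Comparison of `HZ` with the full counting function of the modulus with all primes `≤ Z`. -/
lemma HH_le_HZ {κ pe y Z R : ℕ} (hpe : pe.Prime) (hyZ : y ≤ Z) (hκ : κ ≤ Z) :
    Opt.HH κ (Wf Z pe * pe) R R ≤ HZ κ (Wf y pe * pe) R Z := by
  classical
  have hmem : ∀ q : QT (Wf Z pe * pe) R, (q : ℕ) ∈ PR (Wf y pe * pe) R := by
    intro q
    have hq := q.2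
    unfold PR at hq ⊢
    rw [Finset.mem_filter] at hq ⊢
    refine ⟨hq.1, hq.2.1, fun h => hq.2.2 ?_⟩
    rcases (dvd_Wf_iff hq.2.1 hpe).mp h with h | h
    · exact (dvd_Wf_iff hq.2.1 hpe).mpr (Or.inl (by omega))
    · exact (dvd_Wf_iff hq.2.1 hpe).mpr (Or.inr h)
  have hgt : ∀ q : QT (Wf Z pe * pe) R, Z < (q : ℕ) := by
    intro q
    have hq := q.2
    unfold PR at hq
    rw [Finset.mem_filter] at hq
    by_contra h
    exact hq.2.2 ((dvd_Wf_iff hq.2.1 hpe).mpr (Or.inl (by omega)))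
  let e : QT (Wf Z pe * pe) R ↪ QT (Wf y pe * pe) R :=
    ⟨fun q => ⟨(q : ℕ), hmem q⟩, fun a b h => by
      have h' := congrArg (fun x : QT (Wf y pe * pe) R => (x : ℕ)) h
      exact Subtype.ext h'⟩
  have he : ∀ q, ((e q : QT (Wf y pe * pe) R) : ℕ) = (q : ℕ) := fun q => rfl
  have hnV : ∀ T : Finset (QT (Wf Z pe * pe) R), Opt.nV (T.map e) = Opt.nV T := by
    intro T
    unfold Opt.nV
    rw [Finset.prod_map]
    rfl
  have hgV : ∀ T : Finset (QT (Wf Z pe * pe) R), Opt.gV κ (T.map e) = Opt.gV κ T := by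
    intro T
    unfold Opt.gV
    rw [Finset.prod_map]
    rfl
  unfold Opt.HH HZ
  have h1 : ∑ T : Finset (QT (Wf Z pe * pe) R), (if Opt.nV T ≤ R then 1 / Opt.gV κ T else 0) =
      ∑ T ∈ (univ : Finset (Finset (QT (Wf Z pe * pe) R))).map (Finset.mapEmbedding e).toEmbedding,
        (if (∀ q ∈ T, Z < (q : ℕ)) ∧ Opt.nV T ≤ R then 1 / Opt.gV κ T else 0) := by
    rw [Finset.sum_map]
    refine Finset.sum_congr rfl fun T _ => ?_
    have h2 : (Finset.mapEmbedding e).toEmbedding T = T.map e := rfl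
    rw [h2, hnV, hgV]
    have h3 : (∀ q ∈ T.map e, Z < (q : ℕ)) := by
      intro q hq
      obtain ⟨r, -, hr⟩ := Finset.mem_map.mp hq
      rw [← hr, he]
      exact hgt r
    by_cases h4 : Opt.nV T ≤ R
    · rw [if_pos h4, if_pos ⟨h3, h4⟩]
    · rw [if_neg h4, if_neg fun h => h4 h.2]
  rw [h1]
  refine Finset.sum_le_sum_of_subset_of_nonneg (Finset.subset_univ _) fun T _ _ => ?_
  split_ifs with h
  · unfold Opt.gV
    refine div_nonneg zero_le_one (Finset.prod_nonneg fun q hq => ?_)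
    have h2 : κ ≤ (q : ℕ) := by
      have := h.1 q hq
      omega
    have h3 : (κ : ℝ) ≤ (q : ℕ) := by exact_mod_cast h2
    linarith
  · exact le_rfl

/-- Lower bound for the normalising factor. -/
theorem hz : HZStatement := by
  obtain ⟨c, hc0, hc⟩ := exists_mertens
  refine ⟨c / 8000, by positivity, fun κ hκ => ?_⟩
  filter_upwards [log_RK, eventually_ge_atTop (2 * κ + 2)] with J hJ hJκ pe hpe
  have hJ2 : 2 * κ + 2 ≤ J ^ 2 := by nlinarith
  have hJ' : (2 : ℝ) ≤ J := by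
    have : 2 ≤ J := by omega
    exact_mod_cast this
  have hlog : 0 < Real.log J := Real.log_pos (by linarith)
  refine le_trans ?_ (HH_le_HZ (κ := κ) (R := RK J) hpe
    (yJ_le_self.trans (by nlinarith) : yJ J ≤ J ^ 2) (by omega))
  refine le_trans ?_ (Opt.HBound κ (Wf (J ^ 2) pe * pe) (RK J) (RK J) hκ (Wf_mul_pos hpe)
    (fun p hp hpκ => Wf_dvd hp (by omega)) le_rfl)
  have h1 := totient_ge hc (z := J ^ 2) (by omega) hpe
  have h2 : Real.log ((J ^ 2 : ℕ) : ℝ) = 2 * Real.log J := by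
    push_cast
    rw [Real.log_pow]
    push_cast
    ring
  rw [h2] at h1
  calc c / 8000 * (J / Real.log J) = c / 2 / (2 * Real.log J) * (J / 2000) := by
        field_simp
        ring
    _ ≤ _ := by
        refine mul_le_mul h1 hJ (by positivity) (by positivity)

end Pool.Agent.Helper94.BE
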